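import Pool.Agent.Q158.Col.Main

set_option autoImplicit false

/-!
# Coalescence in all intervals, and the entropy of the invariant sets

The Collatz map on the integers. Let `H = 0.94995...` be the binary entropy of `log 2 / log 3` in
bits. For some `η < H` every set of more than `A L ^ η` integers which lies in an interval of length
`L`, wherever this interval lies on the real line, contains two different integers which coalesce
after the same number of steps, at most `K log (L + 1)`. So the conjecture for the integers of any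
interval of length `L` follows from the conjecture for at most `A L ^ η` of them, and every function
with `s` values that is invariant under the map (for example the indicator function of the basin of
a cycle, or of the set of the integers with an unbounded trajectory) has at most `s ^ (A L ^ η)`
words of length `L`: its topological entropy is zero.
-/

namespace Pool.Agent.Results.MP_2b866c_nt.CoalescenceInAllIntervals

/-- the Collatz map on the integers -/
def C (x : ℤ) : ℤ := if x % 2 = 0 then x / 2 else 3 * x + 1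

/-- the union of the five known cycles -/
def Known : Finset ℤ := {1, 4, 2, -1, -2, -5, -14, -7, -20, -10, -17, -50, -25, -74, -37, -110, -55,
  -164, -82, -41, -122, -61, -182, -91, -272, -136, -68, -34, 0}

/-- the binary entropy of `log 2 / log 3`, in bits -/
noncomputable def H : ℝ := Real.binEntropy (Real.log 2 / Real.log 3) / Real.log 2

/-- the words of length `L` of `F` -/
def Words {s : ℕ} (F : ℤ → Fin s) (L : ℕ) : Set (Fin L → Fin s) :=
  {w | ∃ n : ℤ, ∀ i : Fin L, w i = F (n + (i : ℕ))}

theorem C_eq : C = Pool.Agent.Q158.Col.C := rfl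

theorem known_C : ∀ x ∈ Known, C x ∈ Known := by decide

theorem known_iter (k : ℕ) : ∀ x ∈ Known, C^[k] x ∈ Known := by
  induction k with
  | zero => intro x hx; exact hx
  | succ k ih =>
    intro x hx
    rw [Function.iterate_succ_apply]
    exact ih _ (known_C x hx)

/-- There are `η < H = 0.94995...`, `A` and `K` such that for every `L ≥ 1`:
(1) every set of more than `A L ^ η` integers of an interval `[a, a + L]` contains two different
integers `x`, `y` with `C^t x = C^t y` for some `t ≤ K log (L + 1)`;
(2) every interval `[a, a + L]` contains a set `M` of at most `A L ^ η` integers such that for every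
integer `x` of the interval there are `m ∈ M` and `t ≤ K log (L + 1)` with `C^t x = C^t m`; if the
trajectories of the elements of `M` reach the five known cycles, then so do the trajectories of all
integers of the interval;
(3) for every function `F` on the integers with values in a set of `s` elements such that
`F (C x) = F x` for all `x`, at most `s ^ (A L ^ η)` different words of length `L` occur in `F`. -/
theorem result : ∃ η A K : ℝ, 0 < η ∧ η < H ∧ 0 < A ∧ 0 < K ∧ ∀ L : ℕ, 1 ≤ L →
    (∀ (a : ℤ) (S : Finset ℤ), (∀ x ∈ S, a ≤ x ∧ x ≤ a + L) → A * (L : ℝ) ^ η < S.card →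
      ∃ x ∈ S, ∃ y ∈ S, x ≠ y ∧ ∃ t : ℕ, (t : ℝ) ≤ K * Real.log (L + 1) ∧ C^[t] x = C^[t] y) ∧
    (∀ a : ℤ, ∃ M : Finset ℤ, (M.card : ℝ) ≤ A * (L : ℝ) ^ η ∧ (∀ m ∈ M, a ≤ m ∧ m ≤ a + L) ∧
      (∀ x : ℤ, a ≤ x → x ≤ a + L → ∃ m ∈ M, ∃ t : ℕ, (t : ℝ) ≤ K * Real.log (L + 1) ∧
        C^[t] x = C^[t] m) ∧
      ((∀ m ∈ M, ∃ k : ℕ, C^[k] m ∈ Known) →
        ∀ x : ℤ, a ≤ x → x ≤ a + L → ∃ k : ℕ, C^[k] x ∈ Known)) ∧
    (∀ (s : ℕ) (F : ℤ → Fin s), (∀ x, F (C x) = F x) →
      ((Words F L).ncard : ℝ) ≤ (s : ℝ) ^ (A * (L : ℝ) ^ η)) := by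
  classical
  obtain ⟨η, A, K, h0, h1, hA, hK, hm1, hm2⟩ := Pool.Agent.Q158.Col.main
  refine ⟨η, A, K, h0, h1, hA, hK, fun L hL => ⟨fun a S hS hc => ?_, fun a => ?_, fun s F hF => ?_⟩⟩
  · exact hm1 a L hL S hS hc
  · have hlog : 0 ≤ Real.log ((L : ℝ) + 1) := Real.log_nonneg (by
      have : (0 : ℝ) ≤ L := Nat.cast_nonneg L
      linarith)
    set P : Finset ℤ → Prop := fun M => ∀ x ∈ M, ∀ y ∈ M, x ≠ y →
      ¬ ∃ t : ℕ, (t : ℝ) ≤ K * Real.log (L + 1) ∧ C^[t] x = C^[t] y with hP
    obtain ⟨M, hM, hmax⟩ := Finset.exists_max_image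
      ((Finset.Icc a (a + L)).powerset.filter P) (fun M => M.card)
      ⟨∅, by rw [Finset.mem_filter]; exact ⟨Finset.empty_mem_powerset _, by simp [hP]⟩⟩
    rw [Finset.mem_filter, Finset.mem_powerset] at hM
    obtain ⟨hsub, hPM⟩ := hM
    have hin : ∀ m ∈ M, a ≤ m ∧ m ≤ a + L := fun m hm => Finset.mem_Icc.1 (hsub hm)
    have hnet : ∀ x : ℤ, a ≤ x → x ≤ a + L → ∃ m ∈ M, ∃ t : ℕ,
        (t : ℝ) ≤ K * Real.log (L + 1) ∧ C^[t] x = C^[t] m := by
      intro x hx1 hx2
      by_cases hx : x ∈ M
      · exact ⟨x, hx, 0, by rw [Nat.cast_zero]; positivity, rfl⟩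
      by_contra hcon
      push Not at hcon
      have hPi : P (insert x M) := by
        intro y hy z hz hne
        rw [Finset.mem_insert] at hy hz
        rintro ⟨t, ht, he⟩
        rcases hy with rfl | hy <;> rcases hz with rfl | hz
        · exact hne rfl
        · exact hcon z hz t ht he
        · exact hcon y hy t ht he.symm
        · exact hPM y hy z hz hne ⟨t, ht, he⟩
      have := hmax (insert x M) (by
        rw [Finset.mem_filter, Finset.mem_powerset]
        exact ⟨Finset.insert_subset (Finset.mem_Icc.2 ⟨hx1, hx2⟩) hsub, hPi⟩)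
      rw [Finset.card_insert_of_notMem hx] at this
      omega
    refine ⟨M, ?_, hin, hnet, ?_⟩
    · by_contra hcon
      push Not at hcon
      obtain ⟨x, hx, y, hy, hne, h⟩ := hm1 a L hL M hin hcon
      exact hPM x hx y hy hne h
    · intro hk x hx1 hx2
      obtain ⟨m, hm, t, -, he⟩ := hnet x hx1 hx2
      obtain ⟨k, hk⟩ := hk m hm
      refine ⟨k + t, ?_⟩
      rw [Function.iterate_add_apply, he, ← Function.iterate_add_apply, Nat.add_comm,
        Function.iterate_add_apply]
      exact known_iter t _ hk
  · exact hm2 s F hF L hL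

end Pool.Agent.Results.MP_2b866c_nt.CoalescenceInAllIntervals
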