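import Mathlib
import Pool.Agent.Q205.RP.Height2
import Pool.Agent.Q205.RP.Verify2

/-!
# The average order of the heights for almost every perturbation of the `3x+1` map

`T` is the `3x+1` function; for `ω : ℤ → {0, 1}` let `U ω n = T (n + ω n)` (`ω = 0` gives `T`).
The height of `n` is the number of multiplications by `3` in the trajectory of `n` before its first
visit to a finite set `A`, here mostly `A = {1}`. Almost surely the average of the heights of the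
odd `n ≤ x` is asymptotic to `2 log x / log (16 / 9)`, whenever `A` is reached from all `n ≥ 1`. If
the `ω` are chosen at random among those that agree with a finite verification up to `N`, then, up
to a probability `exp (- exp (c √(log N)))`, every `n ≥ 1` reaches `1` and the average height has
this order.
-/

set_option autoImplicit false

open MeasureTheory Finset Filter Topology

namespace Pool.Agent.Results.MP_2b866c_nt.HeightsAfterVerification

/-- The `3x+1` function. -/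
def T (x : ℤ) : ℤ := if x % 2 = 0 then x / 2 else (3 * x + 1) / 2

/-- The perturbed map. -/
def U (ω : ℤ → Fin 2) (x : ℤ) : ℤ := T (x + ((ω x : ℕ) : ℤ))

/-- The law of independent fair coins, one for each integer. -/
noncomputable def coins : Measure (ℤ → Fin 2) :=
  Measure.infinitePi (fun _ : ℤ => (PMF.uniformOfFintype (Fin 2)).toMeasure)

/-- The number of multiplications by `3` among the first `k` steps from `n`. -/
def mults (ω : ℤ → Fin 2) (n : ℤ) (k : ℕ) : ℕ :=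
  ((range k).filter (fun i => ((U ω)^[i] n + ((ω ((U ω)^[i] n) : ℕ) : ℤ)) % 2 = 1)).card

/-- The time of the first visit to `A`. -/
noncomputable def firstVisit (ω : ℤ → Fin 2) (A : Finset ℤ) (n : ℤ) : ℕ :=
  sInf {k | (U ω)^[k] n ∈ A}

/-- The height of `n` with respect to `A`. -/
noncomputable def height (ω : ℤ → Fin 2) (A : Finset ℤ) (n : ℤ) : ℕ :=
  mults ω n (firstVisit ω A n)

/-- The average order of the height. -/
noncomputable def H (ω : ℤ → Fin 2) (A : Finset ℤ) (x : ℕ) : ℝ :=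
  2 / (x : ℝ) * ∑ n ∈ (range (x + 1)).filter (fun n => n % 2 = 1), (height ω A (n : ℤ) : ℝ)

/-- `H(x) ~ 2 log x / log (16/9)`. -/
def AverageOrder (ω : ℤ → Fin 2) (A : Finset ℤ) : Prop :=
  Tendsto (fun x : ℕ => H ω A x * Real.log (16 / 9) / (2 * Real.log x)) atTop (𝓝 1)

/-- The assertion of the problem, for the map `U ω`. -/
def Good (ω : ℤ → Fin 2) : Prop :=
  (∀ n : ℤ, 1 ≤ n → ∃ k : ℕ, (U ω)^[k] n = 1) ∧ AverageOrder ω {1}

theorem U_eq (ω : ℤ → Fin 2) : Q205.RP.Tn Q205.RP.G3 ω = U ω := rfl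

theorem log_169 : Real.log (16 / 9) = 2 * Real.log (4 / 3) := by
  rw [show (16 / 9 : ℝ) = (4 / 3) ^ 2 by norm_num, Real.log_pow]
  norm_num

theorem almost_every : ∀ᵐ ω ∂coins, (∃ A : Finset ℤ, ∀ n : ℤ, ∃ k : ℕ, (U ω)^[k] n ∈ A) ∧
    ∀ A : Finset ℤ, (∀ n : ℤ, 1 ≤ n → ∃ k : ℕ, (U ω)^[k] n ∈ A) → AverageOrder ω A := by
  have h1 := Q205.RP.average_ae
  have h2 := Q205.RP.main_cycles Q205.RP.G3 (m := ![1, 3]) (q := 3) (E := 1) (by norm_num)
    (by norm_num) (by norm_num) (fun i => by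
      fin_cases i
      · exact ⟨0, by norm_num, by simp⟩
      · exact ⟨1, by norm_num, by simp⟩) (Q205.RP.RR_ge _ _) Q205.RP.lin_G3 (by
      rw [Fin.prod_univ_two]
      simp
      norm_num)
  change ∀ᵐ ω ∂(Q205.RP.P 2), _
  filter_upwards [h1, h2] with ω hω hper
  obtain ⟨⟨K, hK⟩, hav⟩ := hω
  refine ⟨⟨hper.toFinset, fun n => ?_⟩, fun A hA => ?_⟩
  · obtain ⟨i, j, hij, _, hxx⟩ := hK n
    refine ⟨i, ?_⟩
    rw [Set.Finite.mem_toFinset]
    exact Q205.RP.mem_periodicPts_of_eq _ hij hxx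
  · have h3 := hav A (fun n hn => hA n (by
      have : 1 ≤ n := by omega
      exact_mod_cast this))
    have h4 := h3.mul_const (Real.log (4 / 3))
    have h43 : Real.log (4 / 3) ≠ 0 := (Real.log_pos (by norm_num)).ne'
    rw [one_div_mul_cancel h43] at h4
    refine h4.congr (fun x => ?_)
    have hH : (2 / (x : ℝ) * ∑ n ∈ Q205.RP.oddsUpTo x, (Q205.RP.oddc (Q205.RP.Tn Q205.RP.G3 ω) ω
        (n : ℤ) (Q205.RP.hitT (Q205.RP.Tn Q205.RP.G3 ω) A n) : ℝ)) = H ω A x := rfl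
    rw [hH, log_169]
    by_cases hx : Real.log (x : ℝ) = 0
    · rw [hx]; simp
    · field_simp

theorem main : ∃ c : ℝ, 0 < c ∧ ∃ N₀ : ℕ, ∀ N : ℕ, N₀ ≤ N → ∀ (D : Finset ℤ) (g : ℤ → Fin 2),
    (∀ n : ℤ, 1 ≤ n → n ≤ N → n ∈ D) → (∀ n ∈ D, U g n ∈ D) →
    (∀ n ∈ D, ∃ k : ℕ, (U g)^[k] n = 1) →
    coins {ω | (∀ n ∈ D, ω n = g n) ∧ ¬ Good ω} ≤
      ENNReal.ofReal (Real.exp (-Real.exp (c * Real.sqrt (Real.log N)))) *
        coins {ω | ∀ n ∈ D, ω n = g n} := by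
  obtain ⟨c, hc, N₀, h⟩ := Q205.RP.main_verify (q := 3) (E := 1) Q205.RP.G3 (by norm_num)
    (by norm_num) (by norm_num) (fun i => by
      fin_cases i
      · exact ⟨0, by norm_num, by simp⟩
      · exact ⟨1, by norm_num, by simp⟩) (Q205.RP.RR_ge _ _) Q205.RP.lin_G3 (by
      rw [Fin.prod_univ_two]
      simp
      norm_num)
  refine ⟨c, hc, N₀, fun N hN D g hD1 hD2 hD3 => ?_⟩
  have h1 := h N hN D g {z | 1 ≤ z} (by
    intro z hz a
    have ha : (0 : ℤ) ≤ ((a : ℕ) : ℤ) := by positivity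
    simp only [Set.mem_ofPred_eq] at hz ⊢
    unfold Q205.RP.G3 Q205.RP.tab
    split_ifs <;> omega) (by
    intro z hz hzN
    simp only [Set.mem_ofPred_eq] at hz
    rw [abs_of_nonneg (by omega)] at hzN
    exact hD1 z hz hzN)
  have hae := almost_every
  rw [ae_iff] at hae
  have hcover : {ω | (∀ n ∈ D, ω n = g n) ∧ ¬ Good ω} ⊆
      {ω | ¬ ((∃ A : Finset ℤ, ∀ n : ℤ, ∃ k : ℕ, (U ω)^[k] n ∈ A) ∧
        ∀ A : Finset ℤ, (∀ n : ℤ, 1 ≤ n → ∃ k : ℕ, (U ω)^[k] n ∈ A) → AverageOrder ω A)} ∪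
      {ω | (¬ ∃ K : ℝ, ∀ x ∈ {z : ℤ | 1 ≤ z}, ∃ k : ℕ, (k : ℝ) ≤ K * Real.log (2 + |(x : ℝ)|) ∧
          (Q205.RP.Tn Q205.RP.G3 ω)^[k] x ∈ D) ∧ ∀ s ∈ D, ω s = g s} := by
    rintro ω ⟨hω, hbad⟩
    by_cases ha : (∃ A : Finset ℤ, ∀ n : ℤ, ∃ k : ℕ, (U ω)^[k] n ∈ A) ∧
        ∀ A : Finset ℤ, (∀ n : ℤ, 1 ≤ n → ∃ k : ℕ, (U ω)^[k] n ∈ A) → AverageOrder ω A
    swap
    · exact Or.inl ha
    right
    refine ⟨?_, hω⟩
    rintro ⟨K, hK⟩
    apply hbad
    have hreach : ∀ n : ℤ, 1 ≤ n → ∃ k : ℕ, (U ω)^[k] n = 1 := by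
      intro n hn
      obtain ⟨j, _, hj⟩ := hK n hn
      rw [U_eq] at hj
      obtain ⟨k, hk⟩ := hD3 _ hj
      have hit := Q205.RP.iter_eq Q205.RP.G3 ω g D hω (fun s hs => hD2 s hs) hj k
      rw [U_eq, U_eq] at hit
      refine ⟨k + j, ?_⟩
      rw [Function.iterate_add_apply, hit.1]
      exact hk
    exact ⟨hreach, ha.2 {1} (fun n hn => by
      obtain ⟨k, hk⟩ := hreach n hn
      exact ⟨k, by rw [hk]; exact Finset.mem_singleton_self _⟩)⟩
  refine (measure_mono hcover).trans ((measure_union_le _ _).trans ?_)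
  rw [hae, zero_add]
  exact h1

/-- the choice `n mod 2` makes every trajectory decrease to `1` -/
theorem decreasing (n : ℤ) (hn : 1 ≤ n) :
    ∃ k : ℕ, (U (fun x => Q205.RP.res 2 x))^[k] n = 1 := by
  have hstep : ∀ x : ℤ, U (fun x => Q205.RP.res 2 x) x = (x + x % 2) / 2 := by
    intro x
    unfold U T
    have h1 := Q205.RP.res_cast (d := 2) x
    push_cast at h1
    rw [h1]
    rw [if_pos (by omega)]
  obtain ⟨b, rfl⟩ : ∃ b : ℕ, n = b := ⟨n.toNat, by omega⟩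
  induction b using Nat.strong_induction_on with
  | _ b ih =>
    rcases Nat.lt_or_ge b 2 with h | h
    · exact ⟨0, by simp only [Function.iterate_zero, id_eq]; omega⟩
    · obtain ⟨k, hk⟩ := ih ((b + b % 2) / 2) (by omega) (by push_cast; omega)
      refine ⟨k + 1, ?_⟩
      rw [Function.iterate_succ_apply, hstep]
      push_cast at hk
      exact hk

theorem result : (∀ᵐ ω ∂coins, (∃ A : Finset ℤ, ∀ n : ℤ, ∃ k : ℕ, (U ω)^[k] n ∈ A) ∧
      ∀ A : Finset ℤ, (∀ n : ℤ, 1 ≤ n → ∃ k : ℕ, (U ω)^[k] n ∈ A) → AverageOrder ω A) ∧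
    (∃ c : ℝ, 0 < c ∧ ∃ N₀ : ℕ, ∀ N : ℕ, N₀ ≤ N → ∀ (D : Finset ℤ) (g : ℤ → Fin 2),
      (∀ n : ℤ, 1 ≤ n → n ≤ N → n ∈ D) → (∀ n ∈ D, U g n ∈ D) →
      (∀ n ∈ D, ∃ k : ℕ, (U g)^[k] n = 1) →
      coins {ω | (∀ n ∈ D, ω n = g n) ∧ ¬ Good ω} ≤
        ENNReal.ofReal (Real.exp (-Real.exp (c * Real.sqrt (Real.log N)))) *
          coins {ω | ∀ n ∈ D, ω n = g n}) ∧
    0 < coins {ω | Good ω} := by
  refine ⟨almost_every, main, ?_⟩
  obtain ⟨c, hc, N₀, h⟩ := main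
  set g : ℤ → Fin 2 := fun x => Q205.RP.res 2 x with hg
  set D : Finset ℤ := Finset.Icc 1 (N₀ : ℤ) with hD
  have h1 := h N₀ le_rfl D g (fun n h1 h2 => Finset.mem_Icc.2 ⟨h1, h2⟩) (by
    intro n hn
    rw [hD, Finset.mem_Icc] at hn ⊢
    have h1 := Q205.RP.res_cast (d := 2) n
    push_cast at h1
    show 1 ≤ U g n ∧ U g n ≤ N₀
    unfold U T
    rw [hg, h1, if_pos (by omega)]
    omega) (fun n hn => decreasing n (Finset.mem_Icc.1 hn).1)
  set A := coins {ω | ∀ n ∈ D, ω n = g n} with hA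
  have hApos : 0 < A := by
    rw [hA]
    have h2 : coins {ω | ∀ n ∈ D, ω n = g n} = (((2 : ℕ) : ENNReal)⁻¹) ^ D.card :=
      Q205.RP.cyl D g
    rw [h2]
    apply ENNReal.pow_pos
    rw [ENNReal.inv_pos]
    exact ENNReal.natCast_ne_top 2
  have hAfin : A ≠ ⊤ := by
    have : IsProbabilityMeasure coins := inferInstanceAs (IsProbabilityMeasure (Q205.RP.P 2))
    exact measure_ne_top _ _
  by_contra hcon
  have hzero : coins {ω | Good ω} = 0 := by
    simpa using hcon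
  have h2 : A ≤ coins {ω | Good ω} +
      coins {ω | (∀ n ∈ D, ω n = g n) ∧ ¬ Good ω} := by
    refine (measure_mono ?_).trans (measure_union_le _ _)
    intro ω hω
    by_cases hl : Good ω
    · exact Or.inl hl
    · exact Or.inr ⟨hω, hl⟩
  rw [hzero, zero_add] at h2
  have h3 : Real.exp (-Real.exp (c * Real.sqrt (Real.log N₀))) < 1 := by
    rw [Real.exp_lt_one_iff]
    linarith [Real.exp_pos (c * Real.sqrt (Real.log N₀))]
  have h4 : ENNReal.ofReal (Real.exp (-Real.exp (c * Real.sqrt (Real.log N₀)))) < 1 := by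
    rw [← ENNReal.ofReal_one]
    exact (ENNReal.ofReal_lt_ofReal_iff one_pos).2 h3
  have h5 : ENNReal.ofReal (Real.exp (-Real.exp (c * Real.sqrt (Real.log N₀)))) * A < 1 * A :=
    (ENNReal.mul_lt_mul_iff_left hApos.ne' hAfin).2 h4
  rw [one_mul] at h5
  exact absurd (h2.trans h1) (not_le.2 h5)

end Pool.Agent.Results.MP_2b866c_nt.HeightsAfterVerification
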