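import Pool.Agent.Results.MP_2b866c_nt.HeightLaw
import Pool.Agent.Q138.PS.UD

/-!
# Heights of the numbers `⌊α P(n)⌋` under the `3x+1` map

Let `q ≥ 2`. Outside a set of real numbers of Hausdorff dimension at most `q / (q + 1 / (q 2 ^ (q - 1)))` (that is
`8 / 9` for `q = 2`) every `α > 0` has the following property: for the integral polynomials `P` of degree `q` the heights of the
odd ones of the numbers `⌊α P(n)⌋` have the same normal limit law as those of all odd integers, jointly with the residues of the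
heights, uniformly in `P`.
-/

set_option autoImplicit false

namespace Pool.Agent.Results.MP_2b866c_nt.HeightsAlongRealMultiples

open Finset Filter Topology
open Pool.Agent.Q138.PS
open Pool.Agent.Results.MP_2b866c_nt.HeightLaw (height bound Phi HasOddDensity)

/-- `m` is odd and of finite height -/
def FiniteHeight (m : ℕ) : Prop := Odd m ∧ height m ≠ ⊤

/-- `m` is odd, with a finite height `h ≡ b` modulo `Q` that is at most `bound x m` -/
def Level (Q : ℕ) (b : ℤ) (x : ℝ) (m : ℕ) : Prop :=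
  Odd m ∧ ∃ h : ℕ, height m = h ∧ (h : ℝ) ≤ bound x m ∧ (h : ℤ) ≡ b [ZMOD Q]

theorem bound_mono (n : ℕ) {x y : ℝ} (h : x ≤ y) : bound x n ≤ bound y n := by
  unfold bound
  have h3 : 0 ≤ Real.log 2 := Real.log_nonneg (by norm_num)
  have : 0 ≤ Real.log 2 * Real.sqrt (2 * Real.log n / Real.log (4 / 3) ^ 3) := by positivity
  nlinarith

theorem phi_cont : Continuous Phi := by
  have : Phi = Pool.Agent.H499R2.ND.Phi := by
    funext x
    unfold Phi
    rw [← Pool.Agent.H499R2.ND.phi_cdf]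
  rw [this]
  exact Pool.Agent.H499R2.ND.Phi_continuous

theorem odd_dn {P : ℕ → Prop} {δ : ℝ} (h : HasOddDensity P δ) : Dn (fun m => Odd m ∧ P m) (δ / 2) := by
  refine dn_of ((h.div_const 2).congr fun N => ?_)
  have e : {m : ℕ | m ≤ N ∧ Odd m ∧ P m} = {n : ℕ | 1 ≤ n ∧ n ≤ N ∧ Odd n ∧ P n} := by
    ext m
    exact ⟨fun h => ⟨h.2.1.pos, h⟩, fun h => h.2⟩
  rw [e]
  ring

/-- **Theorem.** Let `δ > 0` be the density of the odd integers of finite height among all odd integers (`δ = 1` if and only if all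
are of finite height). For each `q ≥ 2` there is a set `E` of Hausdorff dimension at most `q / (q + 1 / (q 2 ^ (q - 1)))` such that
for each `α > 0` outside `E`: the proportions of the `n ≤ N` for which `⌊α P(n)⌋` is odd, is odd and of finite height, and (for all
`Q ≥ 1`, `b` and every real `x`) has the property `Level`, tend to `1 / 2`, to `δ / 2` and to `δ Phi(x) / (2 Q)`, uniformly in
`P ∈ ℤ[X]` of degree `q` with positive leading coefficient and coefficients of size at most `N ^ η`. -/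
theorem result : ∃ δ : ℝ, 0 < δ ∧ δ ≤ 1 ∧ (δ = 1 ↔ ∀ m : ℕ, Odd m → height m ≠ ⊤) ∧
    ∀ q : ℕ, 2 ≤ q → ∃ E : Set ℝ, dimH E ≤ ENNReal.ofReal (q / (q + 1 / ((q : ℝ) * 2 ^ (q - 1)))) ∧
      ∀ α : ℝ, 0 < α → α ∉ E → Along q α Odd (1 / 2) ∧ Along q α FiniteHeight (δ / 2) ∧
        ∀ (Q : ℕ) (b : ℤ), 1 ≤ Q → ∀ x : ℝ, Along q α (Level Q b x) (δ * Phi x / Q / 2) := by
  obtain ⟨δ, h0, h1, h2, h3, h4⟩ := Pool.Agent.Results.MP_2b866c_nt.HeightLaw.result
  refine ⟨δ, h0, h1, h2, fun q hq => ?_⟩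
  have hodd : Dn Odd (1 / 2) := by
    have hev : Tendsto (fun N : ℕ => ((N + 1) / 2 : ℝ) / N) atTop (𝓝 (1 / 2)) := by
      have h5 : Tendsto (fun N : ℕ => (1 / 2 : ℝ) + 1 / 2 * (1 / (N : ℝ))) atTop (𝓝 (1 / 2 + 1 / 2 * 0)) :=
        tendsto_const_nhds.add (tendsto_const_nhds.mul tendsto_one_div_atTop_nhds_zero_nat)
      rw [mul_zero, add_zero] at h5
      refine h5.congr' ?_
      filter_upwards [eventually_ge_atTop 1] with N hN
      have : (N : ℝ) ≠ 0 := by positivity
      field_simp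
    have hev2 : Tendsto (fun N : ℕ => ((N : ℝ) / 2) / N) atTop (𝓝 (1 / 2)) := by
      refine (tendsto_const_nhds (x := (1 / 2 : ℝ))).congr' ?_
      filter_upwards [eventually_ge_atTop 1] with N hN
      have : (N : ℝ) ≠ 0 := by positivity
      field_simp
    refine dn_of (tendsto_of_tendsto_of_tendsto_of_le_of_le hev2 hev (fun N => ?_) (fun N => ?_))
    all_goals
      have e : {n : ℕ | 1 ≤ n ∧ n ≤ N ∧ Odd n} = ((range ((N + 1) / 2)).image fun j => 2 * j + 1 : Finset ℕ) := by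
        ext n
        rw [mem_coe, mem_image]
        constructor
        · rintro ⟨g1, g2, j, rfl⟩
          exact ⟨j, mem_range.2 (by omega), rfl⟩
        · rintro ⟨j, hj, rfl⟩
          rw [mem_range] at hj
          exact ⟨by omega, by omega, ⟨j, rfl⟩⟩
      have e2 : ({n : ℕ | 1 ≤ n ∧ n ≤ N ∧ Odd n}.ncard : ℝ) = ((N + 1) / 2 : ℕ) := by
        rw [e, Set.ncard_coe_finset, card_image_of_injective _ (fun a b hab => by simpa using hab), card_range]
      rw [e2]
    · have g : (N : ℝ) ≤ 2 * ((N + 1) / 2 : ℕ) := by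
        have : N ≤ 2 * ((N + 1) / 2) := by omega
        exact_mod_cast this
      gcongr
      linarith
    · have g : 2 * (((N + 1) / 2 : ℕ) : ℝ) ≤ N + 1 := by
        have : 2 * ((N + 1) / 2) ≤ N + 1 := by omega
        exact_mod_cast this
      gcongr
      linarith
  obtain ⟨E0, hE0, g0⟩ := along_nat q hq (fun _ : Unit => Odd) (fun _ => 1 / 2) (fun _ => hodd)
  obtain ⟨E1, hE1, g1⟩ := along_nat q hq (fun _ : Unit => FiniteHeight) (fun _ => δ / 2) (fun _ => odd_dn h3)
  obtain ⟨E2, hE2, g2⟩ := along_real (ι := ℕ × ℤ) q hq (fun k x => Level (k.1 + 1) k.2 x)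
    (fun k x => δ * Phi x / ((k.1 + 1 : ℕ) : ℝ) / 2)
    (fun k x x' n hx hn => by
      obtain ⟨e1, t, e2, e3, e4⟩ := hn
      exact ⟨e1, t, e2, e3.trans (bound_mono n hx), e4⟩)
    (fun k => ((phi_cont.const_mul δ).div_const _).div_const _)
    (fun k x => odd_dn ((h4 (k.1 + 1) k.2 (by omega)).2 x))
  refine ⟨E0 ∪ (E1 ∪ E2), ?_, fun α hα hαE => ⟨g0 α hα (fun h => hαE (Or.inl h)) (),
    g1 α hα (fun h => hαE (Or.inr (Or.inl h))) (), fun Q b hQ x => ?_⟩⟩
  · rw [dimH_union, dimH_union]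
    exact max_le hE0 (max_le hE1 hE2)
  · obtain ⟨Q, rfl⟩ : ∃ Q', Q = Q' + 1 := ⟨Q - 1, by omega⟩
    exact g2 α hα (fun h => hαE (Or.inr (Or.inr h))) (Q, b) x

end Pool.Agent.Results.MP_2b866c_nt.HeightsAlongRealMultiples
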