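import Mathlib
import Pool.Agent.Q74.SP.SH4

set_option autoImplicit false

/-!
The asymptotics of the number of odd `m ≤ x` of given height: an oscillating local limit theorem.
-/

namespace Pool.Agent.Results.MP_2b866c_nt.HeightsLocalLimit

open Finset Filter Topology MeasureTheory

/-- `C(m) = (3m+1)/2^e(m)`, `2^e(m)` the largest power of `2` dividing `3m+1` -/
def C (m : ℕ) : ℕ := (3 * m + 1) / 2 ^ padicValNat 2 (3 * m + 1)

/-- `h` is the height of `m`: the least `k ≥ 1` with `C^k(m) = 1` (so it is finite) -/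
def IsHeight (m h : ℕ) : Prop := IsLeast {k : ℕ | 1 ≤ k ∧ C^[k] m = 1} h

/-- the number of odd integers `1 ≤ m ≤ x` with `h(m) = k` -/
noncomputable def N (x : ℝ) (k : ℕ) : ℕ := {m : ℕ | m % 2 = 1 ∧ (m : ℝ) ≤ x ∧ IsHeight m k}.ncard

/-- the logarithm of the residue `∏_{i < h} (1 + 1 / (3 C^i(m)))` of `m` -/
noncomputable def logRes (m h : ℕ) : ℝ := ∑ i ∈ range h, Real.log (1 + 1 / (3 * (C^[i] m : ℝ)))

/-- the number of odd integers `1 < m ≤ X` of finite height with `a ≤ log Res(m)` -/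
noncomputable def R (X : ℕ) (a : ℝ) : ℕ :=
  {m : ℕ | m % 2 = 1 ∧ 1 < m ∧ m ≤ X ∧ ∃ h, IsHeight m h ∧ a ≤ logRes m h}.ncard

/-- `1 / 2 < saw u ≤ 1`, of period `log 2`, equal to `e ^ (-u)` for `0 ≤ u < log 2` -/
noncomputable def saw (u : ℝ) : ℝ := Real.exp (Real.log 2 * ⌊u / Real.log 2⌋ - u)

/-- the periodic factor -/
noncomputable def Theta (ν : Measure ℝ) (u : ℝ) : ℝ := ∫ r, saw (u + r) ∂ν

theorem C_cast (m : ℕ) : Pool.Agent.Q74.SP.Syr (m : ℤ) = (C m : ℤ) := by
  unfold Pool.Agent.Q74.SP.Syr C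
  have h1 : padicValInt 2 (3 * (m : ℤ) + 1) = padicValNat 2 (3 * m + 1) := by
    have : (3 * (m : ℤ) + 1) = ((3 * m + 1 : ℕ) : ℤ) := by push_cast; ring
    rw [this, padicValInt.of_nat]
  rw [h1]
  push_cast
  rfl

theorem iter_cast (k m : ℕ) : Pool.Agent.Q74.SP.Syr^[k] (m : ℤ) = (C^[k] m : ℤ) := by
  induction k with
  | zero => rfl
  | succ k ih => rw [Function.iterate_succ_apply', Function.iterate_succ_apply', ih, C_cast]

theorem hZ : ∀ z ∈ ({1} : Finset ℤ), z % 2 = 1 := by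
  intro z hz
  rw [mem_singleton] at hz
  rw [hz]
  rfl

theorem ent_eq (k m : ℕ) : Pool.Agent.Q74.SP.Ent {1} k (m : ℤ) ↔ C^[k] m = 1 ∧ ∀ i < k, C^[i] m ≠ 1 := by
  unfold Pool.Agent.Q74.SP.Ent
  simp only [iter_cast, mem_singleton]
  constructor
  · rintro ⟨h1, h2⟩
    exact ⟨by exact_mod_cast h1, fun i hi h => h2 i hi (by exact_mod_cast h)⟩
  · rintro ⟨h1, h2⟩
    exact ⟨by exact_mod_cast h1, fun i hi h => h2 i hi (by exact_mod_cast h)⟩

theorem C_one : C 1 = 1 := by
  unfold C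
  have h1 : padicValNat 2 (3 * 1 + 1) = 2 := by
    rw [show 3 * 1 + 1 = 2 ^ 2 by norm_num]
    exact padicValNat.prime_pow 2
  rw [h1]
  norm_num

/-- heights and entrance times, `m > 1` -/
theorem height_iff {m : ℕ} (hm : 1 < m) (h : ℕ) : IsHeight m h ↔ Pool.Agent.Q74.SP.Ent {1} h (m : ℤ) := by
  rw [ent_eq]
  unfold IsHeight
  constructor
  · rintro ⟨⟨h1, h2⟩, h3⟩
    refine ⟨h2, fun i hi h4 => ?_⟩
    rcases Nat.eq_zero_or_pos i with rfl | hi0
    · simp only [Function.iterate_zero, id] at h4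
      omega
    · have := h3 ⟨hi0, h4⟩
      omega
  · rintro ⟨h1, h2⟩
    refine ⟨⟨?_, h1⟩, ?_⟩
    · by_contra h0
      have : h = 0 := by omega
      subst this
      simp only [Function.iterate_zero, id] at h1
      omega
    · rintro k ⟨hk1, hk2⟩
      by_contra hlt
      exact h2 k (by omega) hk2

/-- heights and entrance times, height `> 1` -/
theorem height_iff' (m : ℕ) {h : ℕ} (hh : 2 ≤ h) : IsHeight m h ↔ Pool.Agent.Q74.SP.Ent {1} h (m : ℤ) := by
  by_cases hm1 : m = 1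
  · subst hm1
    constructor
    · rintro ⟨-, h3⟩
      have := h3 (⟨le_rfl, by rw [Function.iterate_one]; exact C_one⟩ : (1 : ℕ) ∈ {k : ℕ | 1 ≤ k ∧ C^[k] 1 = 1})
      omega
    · intro h1
      rw [ent_eq] at h1
      exact absurd rfl (h1.2 0 (by omega))
  · by_cases hm0 : m = 0
    · subst hm0
      have hC0 : C 0 = 1 := by
        unfold C
        simp
      constructor
      · rintro ⟨-, h3⟩
        have := h3 (⟨le_rfl, by rw [Function.iterate_one]; exact hC0⟩ : (1 : ℕ) ∈ {k : ℕ | 1 ≤ k ∧ C^[k] 0 = 1})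
        omega
      · intro h1
        rw [ent_eq] at h1
        have h2 := h1.2 1 (by omega)
        rw [Function.iterate_one] at h2
        exact absurd hC0 h2
    · exact height_iff (by omega) h

theorem lr_eq {m h : ℕ} (hodd : m % 2 = 1) (he : Pool.Agent.Q74.SP.Ent {1} h (m : ℤ)) :
    Pool.Agent.Q74.SP.lr {1} (m : ℤ) = logRes m h := by
  rw [Pool.Agent.Q74.SP.ent_lr hZ h (m : ℤ) (by omega) he]
  have h1 := (ent_eq h m).1 he
  rw [iter_cast, h1.1]
  unfold logRes
  push_cast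
  rw [Real.log_one, sub_zero]
  apply sum_congr rfl
  intro i _
  rw [iter_cast, Int.cast_natCast, abs_of_pos (by positivity)]

/-- There is a finite measure `ν ≠ 0` without point masses on a bounded interval `[0, A]`, of mass `δ`
(the density of the integers of finite height among the odd integers), such that:
(1) `ν` is the limit law of the logarithms of the residues `Res(m) = ∏_{i < h(m)} (1 + 1/(3 C^i(m)))`:
`2/X` times the number of the odd `1 < m ≤ X` of finite height with `log Res(m) ≥ a` tends to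
`ν [a, ∞)`, for all real `a`;
(2) `Θ(u) = ∫ saw (u + r) dν(r)` is continuous, of period `log 2`, with values in `[δ/2, δ]`;
(3) for real `x > 0` and `k` with `|k log (4/3) - log x| ≤ K √k`, the number `N(x, k)` of the odd
`m ≤ x` of height `k` is given by
`√(2 k) / x N(x, k) = log (4/3) / √(2 π) exp(-(k log (4/3) - log x)²/(4 k (log 2)²))
Θ(k log 3 + log x) + o(1)` as `k → ∞`, uniformly. -/
theorem result : ∃ (ν : Measure ℝ) (A : ℝ), IsFiniteMeasure ν ∧ ν (Set.Icc 0 A)ᶜ = 0 ∧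
    0 < ν.real Set.univ ∧ (∀ r, ν {r} = 0) ∧
    (∀ a : ℝ, Tendsto (fun X : ℕ => 2 / (X : ℝ) * (R X a : ℝ)) atTop (𝓝 (ν.real (Set.Ici a)))) ∧
    Continuous (Theta ν) ∧ (∀ u, Theta ν (u + Real.log 2) = Theta ν u) ∧
    (∀ u, ν.real Set.univ / 2 ≤ Theta ν u ∧ Theta ν u ≤ ν.real Set.univ) ∧
    ∀ K ε : ℝ, 0 < ε → ∃ k0 : ℕ, ∀ k : ℕ, k0 ≤ k → ∀ x : ℝ, 0 < x →
      |k * Real.log (4 / 3) - Real.log x| ≤ K * √k →
      |√(2 * k) / x * N x k - Real.log (4 / 3) / √(2 * Real.pi) *
        Real.exp (-(k * Real.log (4 / 3) - Real.log x) ^ 2 / (4 * k * Real.log 2 ^ 2)) *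
        Theta ν (k * Real.log 3 + Real.log x)| ≤ ε := by
  classical
  have hs : (1 : ℤ) = 1 ∨ (1 : ℤ) = -1 := Or.inl rfl
  have hL2 : 0 < Real.log 2 := Real.log_pos (by norm_num)
  obtain ⟨ν, A0, hν, hA0, hna, hlaw⟩ := Pool.Agent.Q74.SP.law_cont hs {1}
  obtain ⟨A1, hA1pos, hA1⟩ := Pool.Agent.Q74.SP.lr_bdd {1}
  set A := max A0 A1 with hAdef
  have hA : ν (Set.Icc (-A) A)ᶜ = 0 := by
    refine measure_mono_null ?_ hA0
    apply Set.compl_subset_compl.2
    exact Set.Icc_subset_Icc (neg_le_neg (le_max_left _ _)) (le_max_left _ _)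
  have hAl : ∀ x, x ≠ 0 → Pool.Agent.Q74.SP.Meets {1} x → |Pool.Agent.Q74.SP.lr {1} x| ≤ A :=
    fun x h1 h2 => (hA1 x h1 h2).trans (le_max_right _ _)
  have hApos : 0 ≤ A := hA1pos.le.trans (le_max_right _ _)
  have hcast : ∀ n : ℕ, ((1 : ℤ) * (n : ℤ)) = (n : ℤ) := fun n => one_mul _
  have htheta : Theta ν = Pool.Agent.Q74.SP.ThD ν := by
    funext u
    unfold Theta Pool.Agent.Q74.SP.ThD
    congr 1
    funext r
    unfold saw Pool.Agent.Q74.SP.thD
    have h3 : Real.log 2 ≠ 0 := hL2.ne'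
    congr 1
    field_simp
  refine ⟨ν, A, hν, ?_, ?_, fun r => Pool.Agent.Q74.SP.NoAtoms.point hna r, ?_, ?_, ?_, ?_, ?_⟩
  · -- the support
    have hlaw2 := Pool.Agent.Q74.SP.law_cdf_odd hs hZ hA hna hlaw
    apply Pool.Agent.Q74.SP.law_supp hA hlaw
    intro n hn hm
    rw [hcast] at hm ⊢
    -- reduce to odd integers
    have key : ∀ j n : ℕ, 1 ≤ n → n ≤ j → Pool.Agent.Q74.SP.Meets {1} (n : ℤ) →
        0 ≤ Pool.Agent.Q74.SP.lr {1} (n : ℤ) := by
      intro j
      induction j with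
      | zero => intro n h1 h2; omega
      | succ j ih =>
        intro n h1 h2 hm
        rcases Nat.mod_two_eq_zero_or_one n with he | ho
        · have hn2 : (n : ℤ) = 2 * ((n / 2 : ℕ) : ℤ) := by omega
          have hnF : 2 * ((n / 2 : ℕ) : ℤ) ∉ ({1} : Finset ℤ) := by
            rw [mem_singleton]
            omega
          obtain ⟨d1, d2⟩ := Pool.Agent.Q74.SP.double hnF
          rw [hn2] at hm ⊢
          have hm2 := d1.1 hm
          obtain ⟨d3, d4⟩ := d2 hm2
          have h5 := ih (n / 2) (by omega) (by omega) hm2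
          have hne : (((n / 2 : ℕ) : ℤ) : ℝ) ≠ 0 := by
            have : n / 2 ≠ 0 := by omega
            exact_mod_cast this
          unfold Pool.Agent.Q74.SP.lr at h5 ⊢
          rw [d4, d3]
          refine h5.trans (le_of_eq ?_)
          push_cast
          push_cast at hne
          rw [Real.log_mul (by norm_num) hne]
          ring
        · obtain ⟨h, hh⟩ := (Pool.Agent.Q74.SP.meets_ent hZ (x := (n : ℤ)) (by omega)).1 hm
          rw [lr_eq ho hh]
          unfold logRes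
          apply sum_nonneg
          intro i _
          apply Real.log_nonneg
          have : (0 : ℝ) ≤ 1 / (3 * (C^[i] n : ℝ)) := by positivity
          linarith
    exact key n n hn le_rfl hm
  · exact Pool.Agent.Q74.SP.mass_pos hs hlaw ⟨1, by simp, by norm_num, by norm_num⟩
  · intro a
    have h1 := Pool.Agent.Q74.SP.law_cdf_odd hs hZ hA hna hlaw a
    set c : ℕ := if a ≤ Pool.Agent.Q74.SP.lr {1} 1 then 1 else 0 with hc
    have h2 : Tendsto (fun X : ℕ => 2 / (X : ℝ) * (c : ℝ)) atTop (𝓝 0) := by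
      have := (tendsto_one_div_atTop_nhds_zero_nat (𝕜 := ℝ)).const_mul (2 * (c : ℝ))
      rw [mul_zero] at this
      refine this.congr fun X => ?_
      ring
    have h3 := h1.sub h2
    rw [sub_zero] at h3
    refine h3.congr' ?_
    filter_upwards [eventually_ge_atTop 1] with X hX
    rw [← mul_sub]
    congr 1
    have hm1 : Pool.Agent.Q74.SP.Meets {1} (1 : ℤ) := ⟨0, by simp⟩
    have e1 : (Icc 1 X).filter (fun n : ℕ => n % 2 = 1 ∧ Pool.Agent.Q74.SP.Meets {1} (1 * (n : ℤ)) ∧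
        a ≤ Pool.Agent.Q74.SP.lr {1} (1 * (n : ℤ))) =
        (if a ≤ Pool.Agent.Q74.SP.lr {1} 1 then {1} else ∅) ∪
        (Icc 1 X).filter (fun n : ℕ => 1 < n ∧ n % 2 = 1 ∧ Pool.Agent.Q74.SP.Meets {1} (n : ℤ) ∧
        a ≤ Pool.Agent.Q74.SP.lr {1} (n : ℤ)) := by
      ext n
      rw [mem_filter, mem_union, mem_filter, hcast]
      constructor
      · rintro ⟨g1, g2, g3, g4⟩
        by_cases hn : n = 1
        · subst hn
          left
          rw [Nat.cast_one] at g4
          rw [if_pos g4]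
          simp
        · rw [mem_Icc] at g1
          exact Or.inr ⟨mem_Icc.2 g1, by omega, g2, g3, g4⟩
      · rintro (g | ⟨g1, g2, g3, g4, g5⟩)
        · split_ifs at g with hif
          · rw [mem_singleton] at g
            subst g
            refine ⟨mem_Icc.2 ⟨le_rfl, hX⟩, rfl, ?_, ?_⟩
            · rw [Nat.cast_one]; exact hm1
            · rw [Nat.cast_one]; exact hif
          · simp at g
        · exact ⟨g1, g3, g4, g5⟩
    have e2 : (R X a : ℕ) = ((Icc 1 X).filter (fun n : ℕ => 1 < n ∧ n % 2 = 1 ∧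
        Pool.Agent.Q74.SP.Meets {1} (n : ℤ) ∧ a ≤ Pool.Agent.Q74.SP.lr {1} (n : ℤ))).card := by
      unfold R
      rw [← Set.ncard_coe_finset]
      congr 1
      ext n
      simp only [Set.mem_ofPred_eq, coe_filter, mem_Icc]
      constructor
      · rintro ⟨g1, g2, g3, h, g4, g5⟩
        have hE := (height_iff g2 h).1 g4
        exact ⟨⟨by omega, g3⟩, g2, g1, (Pool.Agent.Q74.SP.meets_ent hZ (x := (n : ℤ)) (by omega)).2 ⟨h, hE⟩,
          by rw [lr_eq g1 hE]; exact g5⟩
      · rintro ⟨⟨-, g1⟩, g2, g3, g4, g5⟩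
        obtain ⟨h, hE⟩ := (Pool.Agent.Q74.SP.meets_ent hZ (x := (n : ℤ)) (by omega)).1 g4
        rw [lr_eq g3 hE] at g5
        exact ⟨g3, g2, g1, h, (height_iff g2 h).2 hE, g5⟩
    rw [e1, card_union_of_disjoint, ← e2, hc]
    · split_ifs with hif
      · rw [card_singleton]
        push_cast
        ring
      · rw [card_empty]
        push_cast
        ring
    · rw [Finset.disjoint_left]
      intro n g1 g2
      rw [mem_filter] at g2
      split_ifs at g1 with hif
      · rw [mem_singleton] at g1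
        omega
      · simp at g1
  · rw [htheta]
    exact Pool.Agent.Q74.SP.ThD_cont hna
  · intro u
    rw [htheta]
    exact Pool.Agent.Q74.SP.ThD_per u
  · intro u
    rw [htheta]
    exact ⟨Pool.Agent.Q74.SP.ThD_ge u, Pool.Agent.Q74.SP.ThD_le u⟩
  · intro K ε hε
    obtain ⟨k0, hk0⟩ := Pool.Agent.Q74.SP.sharpH hs hApos hA hAl hna hlaw (abs_nonneg K) hε
    refine ⟨max k0 2, fun k hk x hx hxk => ?_⟩
    have h1 := hk0 k ((le_max_left _ _).trans hk) x hx
      (hxk.trans (mul_le_mul_of_nonneg_right (le_abs_self K) (Real.sqrt_nonneg _)))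
    rw [Pool.Agent.Q74.SP.kappa_eq] at h1
    have hNW : N x k = Pool.Agent.Q74.SP.HW 1 {1} x k := by
      unfold N Pool.Agent.Q74.SP.HW
      rw [← Set.ncard_coe_finset]
      congr 1
      ext n
      simp only [Set.mem_ofPred_eq, coe_filter, mem_Icc, hcast]
      constructor
      · rintro ⟨g1, g2, g3⟩
        have hE := (height_iff' n ((le_max_right _ _).trans hk)).1 g3
        obtain ⟨g4, g5⟩ := (Pool.Agent.Q74.SP.ent_iff hZ k (n : ℤ) (by omega)).2 hE
        exact ⟨⟨by omega, Nat.le_floor g2⟩, g1, g4, g5⟩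
      · rintro ⟨⟨-, g1⟩, g2, g3, g4⟩
        have hE := (Pool.Agent.Q74.SP.ent_iff hZ k (n : ℤ) (by omega)).1 ⟨g3, g4⟩
        exact ⟨g2, (Nat.le_floor_iff hx.le).1 g1, (height_iff' n ((le_max_right _ _).trans hk)).2 hE⟩
    rw [hNW, htheta]
    exact h1

end Pool.Agent.Results.MP_2b866c_nt.HeightsLocalLimit
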